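import Pool.Agent.P.MP_3a8f7c_lc.Defs
import Pool.Agent.K.MP_3a8f7c_lc.C1

set_option autoImplicit false

namespace Pool.Agent.Results.MP_3a8f7c_lc.MinimalCone

open Pool.Agent.P.MP_3a8f7c_lc

theorem result : ∃ L : Language Unit, ¬ L.IsRegular ∧ BoundedOfDegree 1 L ∧ IsCone (cone L) ∧
    L ∈ cone L Unit ∧ (∀ (B : Type) [Finite B] (R : Language B), R.IsRegular → R ∈ cone L B) ∧
    ∀ k : ℕ, 1 ≤ k → MinimalForDegree (cone L) k :=
  Pool.Agent.P.MP_3a8f7c_lc.main2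

end Pool.Agent.Results.MP_3a8f7c_lc.MinimalCone
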