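import Pool.Agent.P.MP_3a8f7c_lc.Defs
import Pool.Agent.K.MP_3a8f7c_lc.C0

set_option autoImplicit false

namespace Pool.Agent.Results.MP_3a8f7c_lc.NoneMinimal

open Pool.Agent.P.MP_3a8f7c_lc

theorem result (k : ℕ) (hk : 3 ≤ k) :
    ¬ MinimalForDegree (cone (sLang (· ≤ ·))) k ∧
    ¬ MinimalForDegree (cone (sLang (· ≠ ·))) k ∧
    ¬ MinimalForDegree (cone (sLang (· ≥ ·))) k :=
  Pool.Agent.P.MP_3a8f7c_lc.main k hk

end Pool.Agent.Results.MP_3a8f7c_lc.NoneMinimal
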